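import Pool.Agent.Lib.helper3.EssLim

namespace Pool.Agent.Results.MP_fdf6c3_an.EssOne

open Pool.Agent.Lib.helper3.BanachLim Pool.Agent.Lib.helper3.EssSpec

/-- If the `L`-asymptotic limit of a power bounded operator has essential spectrum `{t}` with
`t > 0`, then `t = 1`. -/
theorem result (H : Type*) [NormedAddCommGroup H] [InnerProductSpace ℂ H] [CompleteSpace H]
    (hH : ¬ FiniteDimensional ℂ H) (L : Linf →ₗ[ℂ] ℂ) (hL : IsBanachLimit L)
    (T A : H →L[ℂ] H) (hT : PowerBounded T) (hA : IsAsympLimit L T A)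
    (t : ℝ) (ht : 0 < t) (hess : essSpectrum A = {(t : ℂ)}) : t = 1 :=
  eq_one_of_compact hH hL hT hA ht
    (compact_of_essSpectrum (isSelfAdjoint_of_asympLimit hL hT hA) hess.subset)

end Pool.Agent.Results.MP_fdf6c3_an.EssOne
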